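import Pool.Agent.Q58.CD.Main

/-!
# Cyclic designs without disjoint representatives of their block orbits

For every `k ≥ 2` there are arbitrarily large `v` and cyclic `(v, k, k - 1)`-designs that have no
system of disjoint representatives; so the conjecture (for all `k`, `l` with `l + 1 ≤ k ≤ 2 l`) is
false.  For `k ≥ 3` every cyclic `(v, k, k - 1)`-design with a short block orbit has no such system,
and we construct such designs with `v = k p` for all prime numbers `p ≡ 1` modulo `k`: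
in `ZMod k × ZMod p`, with `ω` a primitive `k`-th root of unity modulo `p` and `H` the group
generated by `ω`, they consist of `k - 1` copies of all the blocks
`{(i, c ω ^ i + s) : i ∈ ZMod k}` (`c, s ∈ ZMod p`; for `c = 0` the orbit is short) and of one copy of
all the blocks `{i} × (a H + s)`, `a ≠ 0`.  For `k = 2` the design of all pairs of a set of
`v = 8 n + 4` points is a counterexample, by a parity argument.

A multiset of subsets of `ZMod v` is given by its multiplicity function `m`;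
`tr B t = B + t`; `orb B` is the translation orbit of `B`.
-/

set_option autoImplicit false

namespace Pool.Agent.Results.MP_1dd1a8_co.ShortOrbits

open Finset Pool.Agent.Q58.CD

/-- `m` is the multiplicity function of a cyclic `(v, k, l)`-design: the blocks are `k`-subsets of
`ZMod v`, every pair of distinct points lies in exactly `l` blocks, and the multiset of the blocks is
invariant under the translations. -/
def CyclicDesign (v k l : ℕ) [NeZero v] (m : Finset (ZMod v) → ℕ) : Prop :=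
  (∀ B, m B ≠ 0 → B.card = k) ∧
  (∀ x y : ZMod v, x ≠ y →
    ∑ B ∈ univ.filter (fun B : Finset (ZMod v) => x ∈ B ∧ y ∈ B), m B = l) ∧
  ∀ (B : Finset (ZMod v)) (t : ZMod v), m (B.image fun x => x + t) = m B

/-- A system of disjoint representatives: for each translation orbit `O` and each copy
`j = 0, …, m_O - 1` of it (`m_O = m B` for `B ∈ O`) a block `r O j` of this orbit, such that the
chosen blocks are pairwise disjoint. -/
def DisjointReps {v : ℕ} [NeZero v] (m : Finset (ZMod v) → ℕ) : Prop :=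
  ∃ r : Set (Finset (ZMod v)) → ℕ → Finset (ZMod v),
    (∀ B j, j < m B → r (orb B) j ∈ orb B) ∧
    ∀ B B' j j', j < m B → j' < m B' → (orb B ≠ orb B' ∨ j ≠ j') →
      Disjoint (r (orb B) j) (r (orb B') j')

theorem design_iff {v k l : ℕ} [NeZero v] {m : Finset (ZMod v) → ℕ} :
    CyclicDesign v k l m ↔ IsDesign k l m :=
  ⟨fun h => ⟨h.1, h.2.1, h.2.2⟩, fun h => ⟨h.card, h.cover, h.inv⟩⟩

/-- (1) For `k ≥ 3` no cyclic `(v, k, k - 1)`-design with a short block orbit has a system of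
disjoint representatives.
(2) For every `k ≥ 3` there are such designs for arbitrarily large `v`.
(3) For every `k ≥ 2` there are arbitrarily large `v` and cyclic `(v, k, k - 1)`-designs without a
system of disjoint representatives.
(4) The statement of the problem is false. -/
theorem result :
    (∀ v k : ℕ, ∀ _ : NeZero v, 3 ≤ k → ∀ m : Finset (ZMod v) → ℕ, CyclicDesign v k (k - 1) m →
      (∃ (S : Finset (ZMod v)) (t : ZMod v), m S ≠ 0 ∧ t ≠ 0 ∧ S.image (fun x => x + t) = S) →
      ¬ DisjointReps m) ∧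
    (∀ k : ℕ, 3 ≤ k → ∀ v₀ : ℕ, ∃ v, v₀ ≤ v ∧ ∃ _ : NeZero v, ∃ m : Finset (ZMod v) → ℕ,
      CyclicDesign v k (k - 1) m ∧
      ∃ (S : Finset (ZMod v)) (t : ZMod v), m S ≠ 0 ∧ t ≠ 0 ∧ S.image (fun x => x + t) = S) ∧
    (∀ k : ℕ, 2 ≤ k → ∀ v₀ : ℕ, ∃ v, v₀ ≤ v ∧ ∃ _ : NeZero v, ∃ m : Finset (ZMod v) → ℕ,
      CyclicDesign v k (k - 1) m ∧ ¬ DisjointReps m) ∧
    ¬ (∀ k l : ℕ, 0 < k → 0 < l → l + 1 ≤ k → k ≤ 2 * l →
      ∃ v₀ : ℕ, ∀ v, v₀ ≤ v → ∀ _ : NeZero v, ∀ m : Finset (ZMod v) → ℕ,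
        CyclicDesign v k l m → DisjointReps m) := by
  have h3 : ∀ k : ℕ, 2 ≤ k → ∀ v₀ : ℕ, ∃ v, v₀ ≤ v ∧ ∃ _ : NeZero v,
      ∃ m : Finset (ZMod v) → ℕ, CyclicDesign v k (k - 1) m ∧ ¬ DisjointReps m := by
    intro k hk v₀
    rcases Nat.lt_or_ge 2 k with h | h
    · obtain ⟨v, hv, hv0, m, hm, -, hm2⟩ := main_three h v₀
      exact ⟨v, hv, hv0, m, design_iff.2 hm, hm2⟩
    · obtain rfl : k = 2 := le_antisymm h hk
      obtain ⟨v, hv, hv0, m, hm, hm2⟩ := main_two v₀
      exact ⟨v, hv, hv0, m, design_iff.2 hm, hm2⟩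
  refine ⟨?_, ?_, h3, ?_⟩
  · rintro v k hv hk m hm ⟨S, t, hS, ht, hSt⟩
    exact no_reps hk (design_iff.1 hm) hS ht hSt
  · intro k hk v₀
    obtain ⟨v, hv, hv0, m, hm, ⟨S, t, hS, ht, hSt⟩, -⟩ := main_three hk v₀
    exact ⟨v, hv, hv0, m, design_iff.2 hm, S, t, hS, ht, hSt⟩
  · intro h
    obtain ⟨v₀, hv₀⟩ := h 3 2 (by norm_num) (by norm_num) (by norm_num) (by norm_num)
    obtain ⟨v, hv, hv0, m, hm, hm2⟩ := h3 3 (by norm_num) v₀
    exact hm2 (hv₀ v hv hv0 m hm)

end Pool.Agent.Results.MP_1dd1a8_co.ShortOrbits
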